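import Mathlib
import Pool.Agent.Y899.EvenHasse

/-!
For every even `k ≥ 2` the Hasse principle fails for forms `Q (y_1 ^ k, …, y_s ^ k)`, `Q` a
nonsingular quadratic form, in every number `s ≥ (2 k) ^ 3 + 2` of variables.
-/

namespace Pool.Agent.Results.MP_c0a553_nt.EvenExponents

open MvPolynomial

/-- The form `F (y_1, …, y_s) = Q (y_1 ^ k, …, y_s ^ k)`, where `Q (x) = ∑ A i j x_i x_j`. -/
noncomputable def form {s : ℕ} (k : ℕ) (A : Matrix (Fin s) (Fin s) ℚ) :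
    MvPolynomial (Fin s) ℚ :=
  ∑ i, ∑ j, C (A i j) * (X i ^ k * X j ^ k)

/-- `F` has a nontrivial zero over the field `K`. -/
def HasZero (K : Type) [Field K] [Algebra ℚ K] {s : ℕ} (F : MvPolynomial (Fin s) ℚ) : Prop :=
  ∃ y : Fin s → K, y ≠ 0 ∧ aeval y F = 0

/-- `F` has a nonsingular zero over the field `K`. -/
def HasSmoothZero (K : Type) [Field K] [Algebra ℚ K] {s : ℕ} (F : MvPolynomial (Fin s) ℚ) :
    Prop :=
  ∃ y : Fin s → K, aeval y F = 0 ∧ ∃ i, aeval y (pderiv i F) ≠ 0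

/-- The Hasse principle for the form `F`. -/
def HassePrinciple {s : ℕ} (F : MvPolynomial (Fin s) ℚ) : Prop :=
  HasZero ℝ F → (∀ (p : ℕ) [Fact p.Prime], HasZero ℚ_[p] F) → HasZero ℚ F

/-- `h (k)`, the least `s₀` such that for every `s ≥ s₀` and every nonsingular quadratic form in
`s` variables (symmetric matrix `A` with nonzero determinant) the form `Q (y_1 ^ k, …, y_s ^ k)`
satisfies the Hasse principle; `h (k) = ∞` if there is no such `s₀`. -/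
noncomputable def h (k : ℕ) : ℕ∞ :=
  ⨅ s₀ ∈ {s₀ : ℕ | ∀ s : ℕ, s₀ ≤ s → ∀ A : Matrix (Fin s) (Fin s) ℚ, A.IsSymm → A.det ≠ 0 →
    HassePrinciple (form k A)}, (s₀ : ℕ∞)

theorem failure (k : ℕ) (hk : 0 < k) (hke : Even k) (s : ℕ) (hs : (2 * k) ^ 3 + 2 ≤ s) :
    ∃ A : Matrix (Fin s) (Fin s) ℚ, A.IsSymm ∧ A.det ≠ 0 ∧ HasZero ℝ (form k A) ∧
      (∀ (p : ℕ) [Fact p.Prime], HasZero ℚ_[p] (form k A) ∧ HasSmoothZero ℚ_[p] (form k A)) ∧
      ¬ HasZero ℚ (form k A) := by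
  have hk2 : 2 ≤ k := by
    obtain ⟨r, hr⟩ := hke
    omega
  have hpos : 1 ≤ (2 * k) ^ 3 := Nat.one_le_pow _ _ (by omega)
  obtain ⟨n, rfl⟩ : ∃ n, s = n + 3 := ⟨s - 3, by omega⟩
  refine ⟨Pool.Agent.Y899.EvenHasse.gram (n + 3), Pool.Agent.Y899.EvenHasse.gram_symm _,
    Pool.Agent.Y899.EvenHasse.gram_det n, Pool.Agent.Y899.EvenHasse.real_zero k n hk, ?_, ?_⟩
  · intro p hp
    obtain ⟨y, h0, h1, h2⟩ := Pool.Agent.Y899.EvenHasse.padic_zero p k n hk (by omega)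
    exact ⟨⟨y, h0, h1⟩, ⟨y, h1, h2⟩⟩
  · rintro ⟨y, hy0, hy⟩
    exact hy0 (Pool.Agent.Y899.EvenHasse.no_rat_zero k n hk2 hke y hy)

theorem h_eq_top (k : ℕ) (hk : 0 < k) (hke : Even k) : h k = ⊤ := by
  unfold h
  have hempty : {s₀ : ℕ | ∀ s : ℕ, s₀ ≤ s → ∀ A : Matrix (Fin s) (Fin s) ℚ, A.IsSymm →
      A.det ≠ 0 → HassePrinciple (form k A)} = ∅ := by
    rw [Set.eq_empty_iff_forall_notMem]
    intro s₀ hs₀
    obtain ⟨A, h1, h2, h3, h4, h5⟩ := failure k hk hke (s₀ + ((2 * k) ^ 3 + 2)) (by omega)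
    exact h5 (hs₀ _ (by omega) A h1 h2 h3 fun p _ => (h4 p).1)
  rw [hempty]
  simp

/-- (1) For even `k ≥ 2` and every `s ≥ (2 k) ^ 3 + 2` some form in `𝒬_k^(s)` has a nontrivial real
zero and for every prime `p` a nonsingular `p`-adic zero, but no nontrivial rational zero;
(2) `h (k) = ∞` for all even `k ≥ 2`; (3) for every real `c` there are infinitely many `k` with
`h (k) ≥ exp (c k)`. -/
theorem result :
    (∀ k : ℕ, 0 < k → Even k → ∀ s : ℕ, (2 * k) ^ 3 + 2 ≤ s →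
      ∃ A : Matrix (Fin s) (Fin s) ℚ, A.IsSymm ∧ A.det ≠ 0 ∧ HasZero ℝ (form k A) ∧
        (∀ (p : ℕ) [Fact p.Prime], HasZero ℚ_[p] (form k A) ∧ HasSmoothZero ℚ_[p] (form k A)) ∧
        ¬ HasZero ℚ (form k A)) ∧
    (∀ k : ℕ, 0 < k → Even k → h k = ⊤) ∧
    ∀ c : ℝ, {k : ℕ | ENNReal.ofReal (Real.exp (c * k)) ≤ (h k : ENNReal)}.Infinite := by
  refine ⟨failure, h_eq_top, fun c => ?_⟩
  refine Set.infinite_of_injective_forall_mem (f := fun n : ℕ => 2 * (n + 1)) ?_ ?_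
  · intro a b hab
    simp only at hab
    omega
  · intro n
    rw [Set.mem_ofPred_eq, h_eq_top (2 * (n + 1)) (by omega) ⟨n + 1, by ring⟩]
    simp

end Pool.Agent.Results.MP_c0a553_nt.EvenExponents
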